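import Pool.Agent.Q35.EO.Stm2

/-! # Project EO (helper35), job UN, part 2: ideals and the multiples of a vector -/

set_option autoImplicit false

namespace Pool.Agent.Q182.EO

open NumberField FractionalIdeal
open scoped nonZeroDivisors

variable {K : Type} [Field K] [NumberField K]

/-- `τ A = B` -/
def Rl (τ : K) (A B : Ideal (𝓞 K)) : Prop :=
  spanSingleton (𝓞 K)⁰ τ * (A : FractionalIdeal (𝓞 K)⁰ K) = (B : FractionalIdeal (𝓞 K)⁰ K)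

lemma Rl_fun {τ : K} {A B B' : Ideal (𝓞 K)} (h : Rl τ A B) (h' : Rl τ A B') : B = B' := by
  unfold Rl at h h'
  rw [h] at h'
  exact coeIdeal_injective (K := K) h'

lemma Rl_unit {τ : K} {A B : Ideal (𝓞 K)} (h : Rl τ A B) (ε : (𝓞 K)ˣ) :
    Rl (((ε : 𝓞 K) : K) * τ) A B := by
  unfold Rl at *
  rw [← h]
  congr 1
  rw [spanSingleton_eq_spanSingleton]
  refine ⟨ε⁻¹, ?_⟩
  rw [Units.smul_def, Algebra.smul_def, ← mul_assoc]
  have h1 : (algebraMap (𝓞 K) K) ((ε⁻¹ : (𝓞 K)ˣ) : 𝓞 K) * ((ε : 𝓞 K) : K) = 1 := by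
    have h2 : ((ε⁻¹ : (𝓞 K)ˣ) : 𝓞 K) * (ε : 𝓞 K) = 1 := by simp
    have h3 := congrArg (algebraMap (𝓞 K) K) h2
    rw [map_mul, map_one] at h3
    exact h3
  rw [h1, one_mul]

lemma Rl_unit_ex {τ τ' : K} {A B : Ideal (𝓞 K)} (hA : A ≠ ⊥) (h : Rl τ A B) (h' : Rl τ' A B) :
    ∃ ε : (𝓞 K)ˣ, τ' = ((ε : 𝓞 K) : K) * τ := by
  unfold Rl at *
  rw [← h'] at h
  have hA0 : (A : FractionalIdeal (𝓞 K)⁰ K) ≠ 0 := by
    rw [Ne, coeIdeal_eq_zero]; exact hA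
  have h1 := mul_right_cancel₀ hA0 h
  rw [spanSingleton_eq_spanSingleton] at h1
  obtain ⟨z, hz⟩ := h1
  refine ⟨z, ?_⟩
  rw [← hz, Units.smul_def, Algebra.smul_def]

lemma Rl_norm {τ : K} {A B : Ideal (𝓞 K)} (h : Rl τ A B) :
    |(Algebra.norm ℚ τ : ℚ)| * (Ideal.absNorm A : ℚ) = (Ideal.absNorm B : ℚ) := by
  unfold Rl at h
  have h1 := congrArg (FractionalIdeal.absNorm (R := 𝓞 K) (K := K)) h
  rwa [map_mul, absNorm_span_singleton, coeIdeal_absNorm, coeIdeal_absNorm] at h1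

lemma Rl_class {A B : (Ideal (𝓞 K))⁰} : ClassGroup.mk0 A = ClassGroup.mk0 B ↔
    ∃ τ : K, τ ≠ 0 ∧ Rl τ (A : Ideal (𝓞 K)) B := by
  rw [ClassGroup.mk0_eq_mk0_iff_exists_fraction_ring K]
  constructor
  · rintro ⟨x, hx, h⟩; exact ⟨x, hx, h⟩
  · rintro ⟨x, hx, h⟩; exact ⟨x, hx, h⟩

lemma Rl_mem {m : ℕ} (x : Fin m → 𝓞 K) (τ : K) (I : Ideal (𝓞 K)) (hI : I ≠ ⊥) :
    (∀ a, ∃ y ∈ I, algebraMap (𝓞 K) K y = τ * (x a : K)) ↔
      ∃ 𝔟 : Ideal (𝓞 K), Rl τ (Ideal.span (Set.range x)) (I * 𝔟) := by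
  have hI0 : (I : FractionalIdeal (𝓞 K)⁰ K) ≠ 0 := by
    rw [Ne, coeIdeal_eq_zero]; exact hI
  constructor
  · intro h
    have h1 : spanSingleton (𝓞 K)⁰ τ * (Ideal.span (Set.range x) : Ideal (𝓞 K)) ≤
        (I : FractionalIdeal (𝓞 K)⁰ K) := by
      rw [spanSingleton_mul_le_iff]
      intro z hz
      rw [mem_coeIdeal] at hz
      obtain ⟨z', hz', rfl⟩ := hz
      rw [mem_coeIdeal]
      have h2 : ∀ z' ∈ Ideal.span (Set.range x), ∃ y ∈ I, algebraMap (𝓞 K) K y =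
          τ * algebraMap (𝓞 K) K z' := by
        intro z' hz'
        refine Submodule.span_induction ?_ ?_ ?_ ?_ hz'
        · rintro _ ⟨a, rfl⟩
          exact h a
        · exact ⟨0, I.zero_mem, by simp⟩
        · rintro p q - - ⟨y, hy, e⟩ ⟨y', hy', e'⟩
          exact ⟨y + y', I.add_mem hy hy', by rw [map_add, e, e', map_add, mul_add]⟩
        · rintro c p - ⟨y, hy, e⟩
          exact ⟨c * y, I.mul_mem_left c hy, by rw [map_mul, e, smul_eq_mul, map_mul]; ring⟩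
      obtain ⟨y, hy, e⟩ := h2 z' hz'
      exact ⟨y, hy, e⟩
    have h3 : (I : FractionalIdeal (𝓞 K)⁰ K)⁻¹ *
        (spanSingleton (𝓞 K)⁰ τ * (Ideal.span (Set.range x) : Ideal (𝓞 K))) ≤ 1 := by
      rw [← inv_mul_cancel₀ hI0]
      exact mul_le_mul_right h1 _
    obtain ⟨𝔟, h𝔟⟩ := le_one_iff_exists_coeIdeal.mp h3
    refine ⟨𝔟, ?_⟩
    unfold Rl
    rw [coeIdeal_mul, h𝔟, ← mul_assoc, mul_inv_cancel₀ hI0, one_mul]
  · rintro ⟨𝔟, h⟩ a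
    unfold Rl at h
    have h1 : τ * (x a : K) ∈ spanSingleton (𝓞 K)⁰ τ *
        ((Ideal.span (Set.range x) : Ideal (𝓞 K)) : FractionalIdeal (𝓞 K)⁰ K) := by
      have h2 : τ ∈ spanSingleton (𝓞 K)⁰ τ := mem_spanSingleton_self _ _
      have h3 : (x a : K) ∈ ((Ideal.span (Set.range x) : Ideal (𝓞 K)) :
          FractionalIdeal (𝓞 K)⁰ K) := by
        rw [mem_coeIdeal]
        exact ⟨x a, Ideal.subset_span ⟨a, rfl⟩, rfl⟩
      exact FractionalIdeal.mul_mem_mul h2 h3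
    rw [h, mem_coeIdeal] at h1
    obtain ⟨y, hy, e⟩ := h1
    exact ⟨y, (Ideal.mul_le_inf hy).1, e⟩

end Pool.Agent.Q182.EO
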