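import Pool.Agent.Q182.EO.Vol
import Pool.Agent.Q182.EO.Alg

/-! # Project EO (helper35), job UN, part 3: the conditions at the infinite places -/

set_option autoImplicit false

namespace Pool.Agent.Q182.EO

open NumberField NumberField.Units NumberField.Units.dirichletUnitTheorem MeasureTheory
open Pool.Agent.Q35.EO Pool.Agent.Q35.MM
open scoped Classical ENNReal nonZeroDivisors

variable (K : Type) [Field K] [NumberField K]

/-- the shapes of the boxes -/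
noncomputable def Tsh (I : Ideal (𝓞 K)) (ζ : logSpace K) (φ : K →+* ℂ) : ℝ :=
  (Ideal.absNorm I : ℝ) ^ ((1 : ℝ) / dg K) * Real.exp (Zc (if ζ ∈ Fd K then ζ else 0) (InfinitePlace.mk φ))

lemma Tsh_meas (I : Ideal (𝓞 K)) (φ : K →+* ℂ) : Measurable fun ζ => Tsh K I ζ φ := by
  unfold Tsh
  refine Measurable.const_mul (Real.measurable_exp.comp ((Zc_cont _).measurable.comp ?_)) _
  exact Measurable.ite Fd_meas measurable_id measurable_const

lemma Tsh_bdd (R0 : Finset (Ideal (𝓞 K))) (hR0 : ∀ I ∈ R0, I ≠ ⊥) :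
    ∃ c0 : ℝ, 1 ≤ c0 ∧ ∀ I ∈ R0, ∀ ζ, Shp c0 (Tsh K I ζ) := by
  obtain ⟨r, hr⟩ := (Fd_bdd (K := K)).subset_closedBall 0
  -- a bound for the coordinates
  have h1 : ∀ w : InfinitePlace K, ∃ C : ℝ, ∀ x ∈ Metric.closedBall (0 : logSpace K) (max r 0), |Zc x w| ≤ C := by
    intro w
    have hc := (isCompact_closedBall (0 : logSpace K) (max r 0)).bddAbove_image
      (f := fun x => |Zc x w|) (Zc_cont w).abs.continuousOn
    obtain ⟨C, hC⟩ := hc
    exact ⟨C, fun x hx => hC ⟨x, hx, rfl⟩⟩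
  choose C hC using h1
  have h2 : ∀ (ζ : logSpace K) (w : InfinitePlace K), |Zc (if ζ ∈ Fd K then ζ else 0) w| ≤ ∑ w', |C w'| := by
    intro ζ w
    have h3 : (if ζ ∈ Fd K then ζ else 0) ∈ Metric.closedBall (0 : logSpace K) (max r 0) := by
      split_ifs with h
      · exact Metric.closedBall_subset_closedBall (le_max_left _ _) (hr h)
      · exact Metric.mem_closedBall_self (le_max_right _ _)
    refine (hC w _ h3).trans ((le_abs_self _).trans ?_)
    exact Finset.single_le_sum (f := fun w' => |C w'|) (fun _ _ => abs_nonneg _) (Finset.mem_univ w)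
  set E := Real.exp (∑ w', |C w'|) with hE
  have hE1 : 1 ≤ E := Real.one_le_exp (Finset.sum_nonneg fun _ _ => abs_nonneg _)
  set N : ℝ := 1 + ∑ I ∈ R0, (Ideal.absNorm I : ℝ) ^ ((1 : ℝ) / dg K) with hN
  have hN1 : 1 ≤ N := by
    rw [hN]
    have : 0 ≤ ∑ I ∈ R0, (Ideal.absNorm I : ℝ) ^ ((1 : ℝ) / dg K) :=
      Finset.sum_nonneg fun _ _ => by positivity
    linarith
  refine ⟨N * E, one_le_mul_of_one_le_of_one_le hN1 hE1, fun I hI ζ φ => ?_⟩
  have hn1 : 1 ≤ (Ideal.absNorm I : ℝ) ^ ((1 : ℝ) / dg K) := by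
    apply Real.one_le_rpow _ (by positivity)
    have : Ideal.absNorm I ≠ 0 := by
      rw [Ne, Ideal.absNorm_eq_zero_iff]; exact hR0 I hI
    exact_mod_cast Nat.one_le_iff_ne_zero.mpr this
  have hn2 : (Ideal.absNorm I : ℝ) ^ ((1 : ℝ) / dg K) ≤ N := by
    rw [hN]
    have := Finset.single_le_sum (f := fun I => (Ideal.absNorm I : ℝ) ^ ((1 : ℝ) / dg K))
      (fun _ _ => by positivity) hI
    linarith
  have h4 := abs_le.mp (h2 ζ (InfinitePlace.mk φ))
  have he1 : 1 / E ≤ Real.exp (Zc (if ζ ∈ Fd K then ζ else 0) (InfinitePlace.mk φ)) := by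
    rw [hE, one_div, ← Real.exp_neg]
    exact Real.exp_le_exp.mpr h4.1
  have he2 : Real.exp (Zc (if ζ ∈ Fd K then ζ else 0) (InfinitePlace.mk φ)) ≤ E := by
    rw [hE]
    exact Real.exp_le_exp.mpr h4.2
  have hE0 : 0 < E := by linarith
  have hN0 : 0 < N := by linarith
  unfold Tsh
  constructor
  · calc 1 / (N * E) ≤ 1 / E := by
          apply one_div_le_one_div_of_le hE0
          nlinarith
      _ ≤ 1 * Real.exp (Zc (if ζ ∈ Fd K then ζ else 0) (InfinitePlace.mk φ)) := by rw [one_mul]; exact he1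
      _ ≤ _ := by gcongr
  · exact mul_le_mul hn2 he2 (Real.exp_pos _).le hN0.le

variable {K}

/-- the maximum of the coordinates -/
noncomputable def Mx {m : ℕ} (x : Fin m → 𝓞 K) (w : InfinitePlace K) : ℝ := ⨆ a, w ((x a : 𝓞 K) : K)

omit [NumberField K] in
lemma Mx_pos {m : ℕ} {x : Fin m → 𝓞 K} (hx : x ≠ 0) (w : InfinitePlace K) : 0 < Mx x w := by
  obtain ⟨a, ha⟩ := Function.ne_iff.mp hx
  have h1 : 0 < w ((x a : 𝓞 K) : K) := by
    rw [InfinitePlace.pos_iff]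
    intro h
    exact ha (RingOfIntegers.coe_eq_zero_iff.mp h)
  exact h1.trans_le (le_ciSup (f := fun a => w ((x a : 𝓞 K) : K)) (Set.finite_range _).bddAbove a)

omit [NumberField K] in
lemma Mx_le {m : ℕ} {x : Fin m → 𝓞 K} (hx : x ≠ 0) (w : InfinitePlace K) {c R : ℝ} (hc : 0 < c) :
    (∀ a, c * w ((x a : 𝓞 K) : K) ≤ R) ↔ c * Mx x w ≤ R := by
  obtain ⟨a0, ha0⟩ := Function.ne_iff.mp hx
  have : Nonempty (Fin m) := ⟨a0⟩
  have h1 : ∀ a, (c * w ((x a : 𝓞 K) : K) ≤ R ↔ w ((x a : 𝓞 K) : K) ≤ R / c) := by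
    intro a
    rw [le_div_iff₀ hc, mul_comm]
  rw [mul_comm c, ← le_div_iff₀ hc]
  unfold Mx
  rw [ciSup_le_iff (Set.finite_range _).bddAbove]
  exact forall_congr' h1

/-- the height -/
lemma height_eq {m : ℕ} {x : Fin m → 𝓞 K} (hx : x ≠ 0) :
    ∏ w : InfinitePlace K, Mx x w ^ w.mult =
      Height.mulHeight (fun a => ((x a : 𝓞 K) : K)) * (Ideal.absNorm (Ideal.span (Set.range x)) : ℝ) := by
  have hx' : (fun a => ((x a : 𝓞 K) : K)) ≠ 0 := by
    obtain ⟨a, ha⟩ := Function.ne_iff.mp hx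
    refine Function.ne_iff.mpr ⟨a, ?_⟩
    intro h
    exact ha (RingOfIntegers.coe_eq_zero_iff.mp h)
  rw [mulHeight_eq hx']
  have h1 := absNorm_mul_finprod_finitePlace_eq_one (K := K) hx
  unfold Mx
  rw [mul_assoc, mul_comm (∏ᶠ v : FinitePlace K, _) _, h1, mul_one]

/-- the numbers `A w` for the multiples by `ε τ` -/
noncomputable def Aw {m : ℕ} (x : Fin m → 𝓞 K) (I : Ideal (𝓞 K)) (τ : K) (b : ℕ) (w : InfinitePlace K) : ℝ :=
  Real.log (w τ) + Real.log (Mx x w) - Real.log (Ideal.absNorm I) / dg K - Real.log b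

lemma cond_iff {m : ℕ} {x : Fin m → 𝓞 K} (hx : x ≠ 0) {I : Ideal (𝓞 K)} (hI : I ≠ ⊥) {τ : K}
    (hτ : τ ≠ 0) {b : ℕ} (hb : 1 ≤ b) {𝔟 : Ideal (𝓞 K)}
    (hR : Rl τ (Ideal.span (Set.range x)) (I * 𝔟)) (ε : (𝓞 K)ˣ) {ζ : logSpace K} (hζ : ζ ∈ Fd K) :
    (((ε : 𝓞 K) : K) * τ ≠ 0 ∧
      (((ε : 𝓞 K) : K) * τ) • (fun a => ((x a : 𝓞 K) : K)) ∈ bxg K I (Tsh K I ζ) m b) ↔
      ∀ w : InfinitePlace K, Aw x I τ b w + Real.log (w ((ε : 𝓞 K) : K)) ≤ Zc ζ w := by
  have hε0 : ((ε : 𝓞 K) : K) ≠ 0 := by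
    intro h
    exact ε.ne_zero (RingOfIntegers.coe_eq_zero_iff.mp h)
  have hετ : ((ε : 𝓞 K) : K) * τ ≠ 0 := mul_ne_zero hε0 hτ
  have hmem := (Rl_mem x (((ε : 𝓞 K) : K) * τ) I hI).mpr ⟨𝔟, Rl_unit hR ε⟩
  have hb0 : (0 : ℝ) < b := by exact_mod_cast hb
  have hN0 : (0 : ℝ) < Ideal.absNorm I := by
    have : Ideal.absNorm I ≠ 0 := by
      rw [Ne, Ideal.absNorm_eq_zero_iff]; exact hI
    exact_mod_cast Nat.pos_of_ne_zero this
  have hw : ∀ w : InfinitePlace K, (Aw x I τ b w + Real.log (w ((ε : 𝓞 K) : K)) ≤ Zc ζ w ↔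
      w (((ε : 𝓞 K) : K) * τ) * Mx x w ≤
        (Ideal.absNorm I : ℝ) ^ ((1 : ℝ) / dg K) * Real.exp (Zc ζ w) * b) := by
    intro w
    have e1 : 0 < w (((ε : 𝓞 K) : K) * τ) := InfinitePlace.pos_iff.mpr hετ
    have e2 := Mx_pos hx w
    have e3 : 0 < w ((ε : 𝓞 K) : K) := InfinitePlace.pos_iff.mpr hε0
    have e4 : 0 < w τ := InfinitePlace.pos_iff.mpr hτ
    have e5 : 0 < (Ideal.absNorm I : ℝ) ^ ((1 : ℝ) / dg K) := Real.rpow_pos_of_pos hN0 _
    rw [← Real.log_le_log_iff (mul_pos e1 e2) (by positivity), map_mul,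
      Real.log_mul (mul_pos e3 e4).ne' e2.ne', Real.log_mul e3.ne' e4.ne',
      Real.log_mul (by positivity) hb0.ne', Real.log_mul e5.ne' (Real.exp_pos _).ne', Real.log_exp,
      Real.log_rpow hN0]
    unfold Aw
    constructor
    · intro h
      have : 1 / (dg K : ℝ) * Real.log (Ideal.absNorm I) = Real.log (Ideal.absNorm I) / dg K := by ring
      linarith
    · intro h
      have : 1 / (dg K : ℝ) * Real.log (Ideal.absNorm I) = Real.log (Ideal.absNorm I) / dg K := by ring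
      linarith
  rw [mem_bxg]
  constructor
  · rintro ⟨-, h⟩ w
    rw [hw, ← Mx_le hx w (InfinitePlace.pos_iff.mpr hετ)]
    intro a
    have h1 := (h a).2 w.embedding
    unfold Tsh at h1
    rw [if_pos hζ, InfinitePlace.mk_embedding, InfinitePlace.norm_embedding_eq] at h1
    rw [← map_mul]
    exact h1
  · intro h
    refine ⟨hετ, fun a => ⟨?_, fun φ => ?_⟩⟩
    · obtain ⟨y, hy, e⟩ := hmem a
      exact ⟨y, hy, e⟩
    · have h1 := (Mx_le hx (InfinitePlace.mk φ) (InfinitePlace.pos_iff.mpr hετ)).mpr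
        ((hw (InfinitePlace.mk φ)).mp (h (InfinitePlace.mk φ))) a
      rw [← map_mul, InfinitePlace.apply] at h1
      unfold Tsh
      rw [if_pos hζ]
      exact h1

/-- the sum of the numbers `A w` -/
lemma sum_Aw {m : ℕ} {x : Fin m → 𝓞 K} (hx : x ≠ 0) {I : Ideal (𝓞 K)} (hI : I ≠ ⊥) {τ : K}
    (hτ : τ ≠ 0) {b : ℕ} (hb : 1 ≤ b) {𝔟 : Ideal (𝓞 K)} (h𝔟 : 𝔟 ≠ ⊥)
    (hR : Rl τ (Ideal.span (Set.range x)) (I * 𝔟)) :
    -∑ w : InfinitePlace K, w.mult * Aw x I τ b w =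
      Real.log ((b : ℝ) ^ dg K / ((Ideal.absNorm 𝔟 : ℝ) *
        Height.mulHeight (fun a => ((x a : 𝓞 K) : K)))) := by
  have hb0 : (0 : ℝ) < b := by exact_mod_cast hb
  have hN : ∀ J : Ideal (𝓞 K), J ≠ ⊥ → (0 : ℝ) < Ideal.absNorm J := by
    intro J hJ
    have : Ideal.absNorm J ≠ 0 := by
      rw [Ne, Ideal.absNorm_eq_zero_iff]; exact hJ
    exact_mod_cast Nat.pos_of_ne_zero this
  have ha : Ideal.span (Set.range x) ≠ ⊥ := by
    obtain ⟨a, ha⟩ := Function.ne_iff.mp hx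
    intro h
    rw [Ideal.span_eq_bot] at h
    exact ha (h (x a) ⟨a, rfl⟩)
  have hd : (0 : ℝ) < dg K := by exact_mod_cast (Module.finrank_pos (R := ℚ) (M := K))
  have hH : (0 : ℝ) < Height.mulHeight (fun a => ((x a : 𝓞 K) : K)) := Height.mulHeight_pos _
  have s1 : ∑ w : InfinitePlace K, (w.mult : ℝ) * Real.log (w τ) = Real.log |((Algebra.norm ℚ τ : ℚ) : ℝ)| := by
    have h1 := InfinitePlace.prod_eq_abs_norm τ
    rw [Rat.cast_abs] at h1
    rw [← h1, Real.log_prod (fun w _ => pow_ne_zero _ (InfinitePlace.pos_iff.mpr hτ).ne')]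
    apply Finset.sum_congr rfl
    intro w _
    rw [Real.log_pow]
  have s2 : ∑ w : InfinitePlace K, (w.mult : ℝ) * Real.log (Mx x w) =
      Real.log (Height.mulHeight (fun a => ((x a : 𝓞 K) : K))) +
        Real.log (Ideal.absNorm (Ideal.span (Set.range x))) := by
    rw [← Real.log_mul hH.ne' (hN _ ha).ne', ← height_eq hx,
      Real.log_prod (fun w _ => pow_ne_zero _ (Mx_pos hx w).ne')]
    apply Finset.sum_congr rfl
    intro w _
    rw [Real.log_pow]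
  have s3 : ∑ w : InfinitePlace K, (w.mult : ℝ) = dg K := by
    have := InfinitePlace.sum_mult_eq (K := K)
    exact_mod_cast this
  have s4 : Real.log |((Algebra.norm ℚ τ : ℚ) : ℝ)| + Real.log (Ideal.absNorm (Ideal.span (Set.range x))) =
      Real.log (Ideal.absNorm I) + Real.log (Ideal.absNorm 𝔟) := by
    have h1 := Rl_norm hR
    rw [map_mul, Nat.cast_mul] at h1
    have h2 : |((Algebra.norm ℚ τ : ℚ) : ℝ)| * (Ideal.absNorm (Ideal.span (Set.range x)) : ℝ) =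
        (Ideal.absNorm I : ℝ) * (Ideal.absNorm 𝔟 : ℝ) := by exact_mod_cast h1
    have h3 : |((Algebra.norm ℚ τ : ℚ) : ℝ)| ≠ 0 := by
      rw [Ne, abs_eq_zero, Rat.cast_eq_zero]
      exact Algebra.norm_ne_zero_iff.mpr hτ
    rw [← Real.log_mul h3 (hN _ ha).ne', ← Real.log_mul (hN _ hI).ne' (hN _ h𝔟).ne', h2]
  have s5 : ∑ w : InfinitePlace K, (w.mult : ℝ) * Aw x I τ b w =
      ∑ w : InfinitePlace K, (w.mult : ℝ) * Real.log (w τ) +
      ∑ w : InfinitePlace K, (w.mult : ℝ) * Real.log (Mx x w) -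
      (∑ w : InfinitePlace K, (w.mult : ℝ)) * (Real.log (Ideal.absNorm I) / dg K) -
      (∑ w : InfinitePlace K, (w.mult : ℝ)) * Real.log b := by
    rw [Finset.sum_mul, Finset.sum_mul, ← Finset.sum_add_distrib, ← Finset.sum_sub_distrib,
      ← Finset.sum_sub_distrib]
    apply Finset.sum_congr rfl
    intro w _
    unfold Aw
    ring
  rw [s5, s1, s2, s3, mul_div_cancel₀ _ hd.ne',
    Real.log_div (pow_pos hb0 _).ne' (mul_pos (hN _ h𝔟) hH).ne', Real.log_pow,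
    Real.log_mul (hN _ h𝔟).ne' hH.ne']
  linarith

end Pool.Agent.Q182.EO
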