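import Pool.Agent.Q182.EO.Cnt

/-! # Project EO (helper35), job UN -/

set_option autoImplicit false

namespace Pool.Agent.Q182.EO

open NumberField NumberField.Units NumberField.Units.dirichletUnitTheorem MeasureTheory
open Pool.Agent.Q35.EO Pool.Agent.Q35.MM
open scoped Classical ENNReal nonZeroDivisors

variable {K : Type} [Field K] [NumberField K]

/-- the values of the height bound -/
noncomputable def sv {m : ℕ} (v : Fin m → K) (b : ℕ) (𝔟 : Ideal (𝓞 K)) : ℝ :=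
  Real.log ((b : ℝ) ^ dg K / ((Ideal.absNorm 𝔟 : ℝ) * Height.mulHeight v))

/-- the set of the multipliers -/
def Mul {m : ℕ} (v : Fin m → K) (b : ℕ) (I : Ideal (𝓞 K)) (ζ : logSpace K) : Set K :=
  {τ : K | τ ≠ 0 ∧ τ • v ∈ bxg K I (Tsh K I ζ) m b}

lemma Mul_finite {m : ℕ} {v : Fin m → K} (hv : v ≠ 0) (b : ℕ) (I : Ideal (𝓞 K)) (ζ : logSpace K) :
    (Mul v b I ζ).Finite := by
  obtain ⟨a, ha⟩ := Function.ne_iff.mp hv
  have h1 : (Mul v b I ζ) ⊆ (fun τ : K => τ • v) ⁻¹' (bxg K I (Tsh K I ζ) m b : Set (Fin m → K)) :=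
    fun τ hτ => hτ.2
  refine Set.Finite.subset (Set.Finite.preimage ?_ (Finset.finite_toSet _)) h1
  intro τ _ τ' _ h
  have h2 := congrFun h a
  simp only [Pi.smul_apply, smul_eq_mul] at h2
  exact mul_right_cancel₀ ha h2

lemma Mul_ncard {m : ℕ} {v : Fin m → K} (hv : v ≠ 0) (b : ℕ) (I : Ideal (𝓞 K)) (ζ : logSpace K) :
    (((Mul v b I ζ).ncard : ℕ) : ℝ≥0∞) = ∑' τ : K, if τ ∈ Mul v b I ζ then 1 else 0 := by
  have hf := Mul_finite hv b I ζ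
  rw [tsum_eq_sum (s := hf.toFinset), Set.ncard_eq_toFinset_card _ hf]
  · rw [Finset.sum_congr rfl (g := fun _ => 1)]
    · simp
    · intro τ hτ
      rw [Set.Finite.mem_toFinset] at hτ
      rw [if_pos hτ]
  · intro τ hτ
    rw [Set.Finite.mem_toFinset] at hτ
    rw [if_neg hτ]

lemma Mul_meas {m : ℕ} (v : Fin m → K) (b : ℕ) (I : Ideal (𝓞 K)) (τ : K) :
    Measurable fun ζ : logSpace K => if τ ∈ Mul v b I ζ then (1 : ℝ≥0∞) else 0 := by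
  refine Measurable.ite ?_ measurable_const measurable_const
  have h : {ζ : logSpace K | τ ∈ Mul v b I ζ} =
      {_ζ : logSpace K | τ ≠ 0 ∧ ∀ a, ∃ y ∈ I, algebraMap (𝓞 K) K y = (τ • v) a} ∩
        ⋂ a : Fin m, ⋂ φ : K →+* ℂ, {ζ : logSpace K | ‖φ ((τ • v) a)‖ ≤ Tsh K I ζ φ * b} := by
    ext ζ
    simp only [Mul, Set.mem_ofPred_eq, mem_bxg, S1g, Set.mem_inter_iff, Set.mem_iInter]
    constructor
    · rintro ⟨h1, h2⟩
      exact ⟨⟨h1, fun a => (h2 a).1⟩, fun a φ => (h2 a).2 φ⟩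
    · rintro ⟨⟨h1, h2⟩, h3⟩
      exact ⟨h1, fun a => ⟨h2 a, h3 a⟩⟩
  rw [h]
  refine MeasurableSet.inter (MeasurableSet.const _) ?_
  exact MeasurableSet.iInter fun a => MeasurableSet.iInter fun φ =>
    measurableSet_le measurable_const ((Tsh_meas K I φ).mul_const _)

/-- the main computation, for integral vectors -/
lemma main_int (rep : ClassGroup (𝓞 K) → (Ideal (𝓞 K))⁰) (hrep : ∀ c, ClassGroup.mk0 (rep c) = c)
    {m : ℕ} {x : Fin m → 𝓞 K} (hx : x ≠ 0) {b : ℕ} (hb : 1 ≤ b) :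
    ∑ c : ClassGroup (𝓞 K), ∫⁻ ζ in Fd K,
        (((Mul (fun a => ((x a : 𝓞 K) : K)) b (rep c : Ideal (𝓞 K)) ζ).ncard : ℕ) : ℝ≥0∞) =
      ∑' 𝔟 : {𝔟 : Ideal (𝓞 K) // 𝔟 ≠ ⊥}, (Nat.card (torsion K) : ℝ≥0∞) *
        volume (Dl K (sv (fun a => ((x a : 𝓞 K) : K)) b 𝔟.1)) := by
  set v : Fin m → K := fun a => ((x a : 𝓞 K) : K) with hv
  have hv0 : v ≠ 0 := by
    obtain ⟨a, ha⟩ := Function.ne_iff.mp hx
    refine Function.ne_iff.mpr ⟨a, ?_⟩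
    intro h
    exact ha (RingOfIntegers.coe_eq_zero_iff.mp h)
  have ha : Ideal.span (Set.range x) ≠ ⊥ := by
    obtain ⟨a, ha⟩ := Function.ne_iff.mp hx
    intro h
    rw [Ideal.span_eq_bot] at h
    exact ha (h (x a) ⟨a, rfl⟩)
  set 𝔞 : (Ideal (𝓞 K))⁰ := ⟨Ideal.span (Set.range x), mem_nonZeroDivisors_of_ne_zero ha⟩ with h𝔞
  have hrep0 : ∀ c, ((rep c : (Ideal (𝓞 K))⁰) : Ideal (𝓞 K)) ≠ ⊥ := fun c => nonZeroDivisors.ne_zero (rep c).2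
  -- the classes
  have hcl : ∀ 𝔟 : {𝔟 : Ideal (𝓞 K) // 𝔟 ≠ ⊥}, ∃ (c : ClassGroup (𝓞 K)) (τ : K), τ ≠ 0 ∧
      Rl τ (Ideal.span (Set.range x)) ((rep c : Ideal (𝓞 K)) * 𝔟.1) := by
    intro 𝔟
    set B : (Ideal (𝓞 K))⁰ := ⟨𝔟.1, mem_nonZeroDivisors_of_ne_zero 𝔟.2⟩ with hB
    set c := ClassGroup.mk0 𝔞 * (ClassGroup.mk0 B)⁻¹ with hc
    have h1 : ClassGroup.mk0 𝔞 = ClassGroup.mk0 (rep c * B) := by
      rw [map_mul, hrep, hc, inv_mul_cancel_right]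
    obtain ⟨τ, hτ, h2⟩ := Rl_class.mp h1
    exact ⟨c, τ, hτ, h2⟩
  choose cc tt htt hRl using hcl
  -- uniqueness of the class
  have huniq : ∀ (c : ClassGroup (𝓞 K)) (τ : K) (𝔟 : {𝔟 : Ideal (𝓞 K) // 𝔟 ≠ ⊥}), τ ≠ 0 →
      Rl τ (Ideal.span (Set.range x)) ((rep c : Ideal (𝓞 K)) * 𝔟.1) → c = cc 𝔟 := by
    intro c τ 𝔟 hτ hR
    set B : (Ideal (𝓞 K))⁰ := ⟨𝔟.1, mem_nonZeroDivisors_of_ne_zero 𝔟.2⟩ with hB
    have h1 : ClassGroup.mk0 𝔞 = ClassGroup.mk0 (rep c * B) := Rl_class.mpr ⟨τ, hτ, hR⟩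
    have h2 : ClassGroup.mk0 𝔞 = ClassGroup.mk0 (rep (cc 𝔟) * B) := Rl_class.mpr ⟨tt 𝔟, htt 𝔟, hRl 𝔟⟩
    rw [h1, map_mul, map_mul, hrep, hrep] at h2
    exact mul_right_cancel h2
  set F : ClassGroup (𝓞 K) × K → ℝ≥0∞ := fun p => ∫⁻ ζ in Fd K,
    (if p.2 ∈ Mul v b (rep p.1 : Ideal (𝓞 K)) ζ then 1 else 0) with hF
  have hcount : Countable K := (Module.finBasis ℚ K).equivFun.toEquiv.injective.countable
  have e1 : ∑ c : ClassGroup (𝓞 K), ∫⁻ ζ in Fd K,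
      (((Mul v b (rep c : Ideal (𝓞 K)) ζ).ncard : ℕ) : ℝ≥0∞) = ∑' p : ClassGroup (𝓞 K) × K, F p := by
    rw [ENNReal.tsum_prod', tsum_fintype]
    apply Finset.sum_congr rfl
    intro c _
    simp_rw [Mul_ncard hv0]
    rw [lintegral_tsum (fun τ => (Mul_meas v b _ τ).aemeasurable)]
  rw [e1]
  set ψ : {𝔟 : Ideal (𝓞 K) // 𝔟 ≠ ⊥} × (𝓞 K)ˣ → ClassGroup (𝓞 K) × K :=
    fun q => (cc q.1, ((q.2 : 𝓞 K) : K) * tt q.1) with hψ
  have hinj : Function.Injective ψ := by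
    rintro ⟨𝔟, ε⟩ ⟨𝔟', ε'⟩ h
    simp only [hψ, Prod.mk.injEq] at h
    obtain ⟨h1, h2⟩ := h
    have r1 := Rl_unit (hRl 𝔟) ε
    have r2 := Rl_unit (hRl 𝔟') ε'
    rw [h2, h1] at r1
    have h3 := Rl_fun r1 r2
    have h4 : 𝔟 = 𝔟' := Subtype.ext (mul_left_cancel₀ (hrep0 (cc 𝔟')) h3)
    subst h4
    have h5 := mul_right_cancel₀ (htt 𝔟) h2
    have h6 : ε = ε' := Units.ext (RingOfIntegers.ext h5)
    rw [h6]
  have hsupp : Function.support F ⊆ Set.range ψ := by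
    rintro ⟨c, τ⟩ hp
    rw [Function.mem_support] at hp
    have hex : ∃ ζ, τ ∈ Mul v b (rep c : Ideal (𝓞 K)) ζ := by
      by_contra hcon
      push Not at hcon
      apply hp
      rw [hF]
      simp only [hcon, if_false, lintegral_zero]
    obtain ⟨ζ, hτ0, hmem⟩ := hex
    rw [mem_bxg] at hmem
    obtain ⟨𝔟, h𝔟⟩ := (Rl_mem x τ (rep c : Ideal (𝓞 K)) (hrep0 c)).mp (fun a => (hmem a).1)
    have h𝔟0 : 𝔟 ≠ ⊥ := by
      rintro rfl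
      have h1 := Rl_norm h𝔟
      rw [Ideal.mul_bot, Ideal.absNorm_bot, Nat.cast_zero, mul_eq_zero, abs_eq_zero] at h1
      rcases h1 with h1 | h1
      · exact Algebra.norm_ne_zero_iff.mpr hτ0 h1
      · rw [Nat.cast_eq_zero, Ideal.absNorm_eq_zero_iff] at h1
        exact ha h1
    have h2 := huniq c τ ⟨𝔟, h𝔟0⟩ hτ0 h𝔟
    subst h2
    obtain ⟨ε, hε⟩ := Rl_unit_ex ha (hRl ⟨𝔟, h𝔟0⟩) h𝔟
    exact ⟨(⟨𝔟, h𝔟0⟩, ε), by rw [hψ, hε]⟩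
  rw [← hinj.tsum_eq hsupp, ENNReal.tsum_prod' (f := fun q => F (ψ q))]
  apply tsum_congr
  intro 𝔟
  have e2 : ∀ ε : (𝓞 K)ˣ, F (ψ (𝔟, ε)) = ∫⁻ ζ in Fd K, (if ∀ w : InfinitePlace K,
      Aw x (rep (cc 𝔟) : Ideal (𝓞 K)) (tt 𝔟) b w + Real.log (w ((ε : 𝓞 K) : K)) ≤ Zc ζ w
      then 1 else 0) := by
    intro ε
    rw [hF]
    apply setLIntegral_congr_fun Fd_meas
    intro ζ hζ
    have h3 := cond_iff hx (hrep0 (cc 𝔟)) (htt 𝔟) hb (hRl 𝔟) ε hζ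
    simp only [hψ]
    congr 1
    exact propext h3
  simp_rw [e2]
  rw [unfold_units, vol_SA, sum_Aw hx (hrep0 (cc 𝔟)) (htt 𝔟) hb 𝔟.2 (hRl 𝔟)]
  rfl

lemma Mul_smul {m : ℕ} (v : Fin m → K) {c : K} (hc : c ≠ 0) (b : ℕ) (I : Ideal (𝓞 K))
    (ζ : logSpace K) : (Mul (c • v) b I ζ).ncard = (Mul v b I ζ).ncard := by
  have h : Mul v b I ζ = (fun τ : K => τ * c) '' Mul (c • v) b I ζ := by
    ext τ
    simp only [Mul, Set.mem_image, Set.mem_ofPred_eq]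
    constructor
    · rintro ⟨h1, h2⟩
      refine ⟨τ * c⁻¹, ⟨mul_ne_zero h1 (inv_ne_zero hc), ?_⟩, by rw [mul_assoc, inv_mul_cancel₀ hc, mul_one]⟩
      rw [smul_smul, mul_assoc, inv_mul_cancel₀ hc, mul_one]
      exact h2
    · rintro ⟨σ, ⟨h1, h2⟩, rfl⟩
      rw [smul_smul] at h2
      exact ⟨mul_ne_zero h1 hc, h2⟩
  rw [h, Set.ncard_image_of_injective _ (mul_left_injective₀ hc)]

theorem un : S_UN := by
  intro K _ _
  choose rep hrep using ClassGroup.mk0_surjective (R := 𝓞 K)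
  set R0 : Finset (Ideal (𝓞 K)) := Finset.univ.image (fun c => (rep c : Ideal (𝓞 K))) with hR0
  have hR0n : ∀ I ∈ R0, I ≠ ⊥ := by
    intro I hI
    rw [hR0, Finset.mem_image] at hI
    obtain ⟨c, -, rfl⟩ := hI
    exact nonZeroDivisors.ne_zero (rep c).2
  obtain ⟨c0, hc0, hShp⟩ := Tsh_bdd K R0 hR0n
  have htors : 0 < Nat.card (torsion K) := Nat.card_pos
  refine ⟨logSpace K, inferInstance, volume.restrict (Fd K), R0, c0,
    (Nat.card (torsion K) : ℝ) * (volume (Dl K 1)).toReal, Tsh K, ?_, hc0, ?_, hR0n, hShp,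
    fun I φ => Tsh_meas K I φ, ?_⟩
  · exact ⟨by rw [Measure.restrict_apply_univ]; exact Fd_bdd.measure_lt_top⟩
  · exact mul_pos (by exact_mod_cast htors) (ENNReal.toReal_pos vol_Dl_ne_zero vol_Dl_ne_top)
  intro m v hv b hb
  -- integral vectors
  obtain ⟨δ, hδ⟩ := IsLocalization.exist_integer_multiples_of_finset (nonZeroDivisors (𝓞 K))
    (Finset.univ.image v)
  have hδ0 : ((δ : 𝓞 K) : K) ≠ 0 := by
    intro h0
    exact nonZeroDivisors.ne_zero δ.2 (RingOfIntegers.coe_eq_zero_iff.mp h0)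
  have h2 : ∀ a : Fin m, ∃ y : 𝓞 K, (y : K) = ((δ : 𝓞 K) : K) * v a := by
    intro a
    obtain ⟨y, hy⟩ := hδ (v a) (Finset.mem_image_of_mem v (Finset.mem_univ a))
    refine ⟨y, ?_⟩
    rw [Algebra.smul_def] at hy
    exact hy
  choose x hx using h2
  have hvx : v = (((δ : 𝓞 K) : K)⁻¹) • (fun a => ((x a : 𝓞 K) : K)) := by
    funext a
    rw [Pi.smul_apply, smul_eq_mul, hx a, inv_mul_cancel_left₀ hδ0]
  have hx0 : x ≠ 0 := by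
    rintro rfl
    apply hv
    rw [hvx]
    funext a
    simp
  have hinv := inv_ne_zero hδ0
  set v' : Fin m → K := fun a => ((x a : 𝓞 K) : K) with hv'
  have hH : Height.mulHeight v = Height.mulHeight v' := by
    rw [hvx, Height.mulHeight_smul_eq_mulHeight _ hinv]
  have hv'0 : v' ≠ 0 := by
    intro h
    apply hv
    rw [hvx, h, smul_zero]
  have hn : ∀ (I : Ideal (𝓞 K)) (ζ : logSpace K),
      {τ : K | τ ≠ 0 ∧ τ • v ∈ bxg K I (Tsh K I ζ) m b}.ncard = (Mul v' b I ζ).ncard := by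
    intro I ζ
    have h3 := Mul_smul v' hinv b I ζ
    rw [← hvx] at h3
    exact h3
  simp_rw [hn, hH]
  -- the left hand side
  have hinj : Function.Injective (fun c : ClassGroup (𝓞 K) => (rep c : Ideal (𝓞 K))) := by
    intro c c' h
    have h4 : rep c = rep c' := Subtype.ext h
    rw [← hrep c, ← hrep c', h4]
  rw [hR0, Finset.sum_image (fun c _ c' _ h => hinj h)]
  have hcount : Countable K := (Module.finBasis ℚ K).equivFun.toEquiv.injective.countable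
  have hint : ∀ c : ClassGroup (𝓞 K), ∫ ζ, (((Mul v' b (rep c : Ideal (𝓞 K)) ζ).ncard : ℕ) : ℝ)
      ∂(volume.restrict (Fd K)) =
      (∫⁻ ζ in Fd K, (((Mul v' b (rep c : Ideal (𝓞 K)) ζ).ncard : ℕ) : ℝ≥0∞)).toReal := by
    intro c
    rw [← integral_toReal]
    · simp
    · simp_rw [Mul_ncard hv'0]
      exact (Measurable.tsum fun τ => Mul_meas v' b _ τ).aemeasurable
    · exact Filter.Eventually.of_forall fun ζ => ENNReal.natCast_lt_top _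
  simp_rw [hint]
  have hmain := main_int rep hrep hx0 hb
  -- the set of the ideals
  set H := Height.mulHeight v' with hHd
  have hHpos : 0 < H := Height.mulHeight_pos _
  have hb0 : (0 : ℝ) < b := by exact_mod_cast hb
  set S : Set (Ideal (𝓞 K)) := {𝔟 : Ideal (𝓞 K) | 𝔟 ≠ ⊥ ∧ (Ideal.absNorm 𝔟 : ℝ) * H ≤ (b : ℝ) ^ dg K} with hS
  have hSfin : S.Finite := by
    refine (Ideal.finite_setOfPred_absNorm_le (S := 𝓞 K) ⌊(b : ℝ) ^ dg K / H⌋₊).subset ?_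
    rintro 𝔟 ⟨-, h⟩
    exact Nat.le_floor ((le_div_iff₀ hHpos).mpr h)
  have hNpos : ∀ 𝔟 : Ideal (𝓞 K), 𝔟 ≠ ⊥ → (0 : ℝ) < Ideal.absNorm 𝔟 := by
    intro J hJ
    have : Ideal.absNorm J ≠ 0 := by
      rw [Ne, Ideal.absNorm_eq_zero_iff]; exact hJ
    exact_mod_cast Nat.pos_of_ne_zero this
  have hsv : ∀ 𝔟 : Ideal (𝓞 K), 𝔟 ≠ ⊥ → (0 ≤ sv v' b 𝔟 ↔ (Ideal.absNorm 𝔟 : ℝ) * H ≤ (b : ℝ) ^ dg K) := by
    intro 𝔟 h𝔟
    have h5 := mul_pos (hNpos 𝔟 h𝔟) hHpos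
    unfold sv
    rw [Real.log_nonneg_iff (by positivity), one_le_div h5]
  have hsum : ∑' 𝔟 : {𝔟 : Ideal (𝓞 K) // 𝔟 ≠ ⊥}, (Nat.card (torsion K) : ℝ≥0∞) *
        volume (Dl K (sv v' b 𝔟.1)) =
      ENNReal.ofReal ((Nat.card (torsion K) : ℝ) * (volume (Dl K 1)).toReal *
        ∑ 𝔟 ∈ hSfin.toFinset, sv v' b 𝔟 ^ rank K) := by
    have h6 : ∑' 𝔟 : {𝔟 : Ideal (𝓞 K) // 𝔟 ≠ ⊥}, (Nat.card (torsion K) : ℝ≥0∞) *
        volume (Dl K (sv v' b 𝔟.1)) = ∑' 𝔟 : Ideal (𝓞 K), ({𝔟 : Ideal (𝓞 K) | 𝔟 ≠ ⊥}.indicator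
          (fun 𝔟 => (Nat.card (torsion K) : ℝ≥0∞) * volume (Dl K (sv v' b 𝔟)))) 𝔟 := by
      have h12 := (Subtype.val_injective (p := fun 𝔟 : Ideal (𝓞 K) => 𝔟 ≠ ⊥)).tsum_eq
        (f := ({𝔟 : Ideal (𝓞 K) | 𝔟 ≠ ⊥}.indicator
          (fun 𝔟 => (Nat.card (torsion K) : ℝ≥0∞) * volume (Dl K (sv v' b 𝔟))))) (by
          intro 𝔟 h𝔟
          rw [Function.mem_support] at h𝔟
          by_cases h13 : 𝔟 ≠ ⊥
          · exact ⟨⟨𝔟, h13⟩, rfl⟩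
          · exact absurd (Set.indicator_of_notMem (show 𝔟 ∉ {𝔟 : Ideal (𝓞 K) | 𝔟 ≠ ⊥} from h13) _) h𝔟)
      rw [← h12]
      apply tsum_congr
      intro 𝔟
      rw [Set.indicator_of_mem (show 𝔟.1 ∈ {𝔟 : Ideal (𝓞 K) | 𝔟 ≠ ⊥} from 𝔟.2)]
    rw [h6, tsum_eq_sum (s := hSfin.toFinset)]
    · rw [Finset.mul_sum, ENNReal.ofReal_sum_of_nonneg]
      · apply Finset.sum_congr rfl
        intro 𝔟 h𝔟
        rw [Set.Finite.mem_toFinset] at h𝔟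
        have h7 := (hsv 𝔟 h𝔟.1).mpr h𝔟.2
        rw [Set.indicator_of_mem (show 𝔟 ∈ {𝔟 : Ideal (𝓞 K) | 𝔟 ≠ ⊥} from h𝔟.1), vol_Dl h7,
          mul_assoc, ENNReal.ofReal_mul (by positivity), ENNReal.ofReal_natCast,
          ENNReal.ofReal_mul (by positivity), ENNReal.ofReal_toReal vol_Dl_ne_top]
        congr 1
        rw [mul_comm]
      · intro 𝔟 h𝔟
        rw [Set.Finite.mem_toFinset] at h𝔟
        have h7 := (hsv 𝔟 h𝔟.1).mpr h𝔟.2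
        positivity
    · intro 𝔟 h𝔟
      rw [Set.Finite.mem_toFinset] at h𝔟
      by_cases h8 : 𝔟 ≠ ⊥
      · have h9 : sv v' b 𝔟 < 0 := by
          by_contra h10
          push Not at h10
          exact h𝔟 ⟨h8, (hsv 𝔟 h8).mp h10⟩
        rw [Set.indicator_of_mem (show 𝔟 ∈ {𝔟 : Ideal (𝓞 K) | 𝔟 ≠ ⊥} from h8), Dl_neg h9,
          measure_empty, mul_zero]
      · rw [Set.indicator_of_notMem]
        exact h8
  rw [hsum] at hmain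
  have hne : ∀ c ∈ (Finset.univ : Finset (ClassGroup (𝓞 K))),
      (∫⁻ ζ in Fd K, (((Mul v' b (rep c : Ideal (𝓞 K)) ζ).ncard : ℕ) : ℝ≥0∞)) ≠ ⊤ := by
    intro c hc h
    have h11 : ∑ c : ClassGroup (𝓞 K), ∫⁻ ζ in Fd K,
        (((Mul v' b (rep c : Ideal (𝓞 K)) ζ).ncard : ℕ) : ℝ≥0∞) ≠ ⊤ := by
      rw [hmain]; exact ENNReal.ofReal_ne_top
    exact h11 (ENNReal.sum_eq_top.mpr ⟨c, hc, h⟩)
  rw [← ENNReal.toReal_sum hne, hmain, ENNReal.toReal_ofReal, finsum_mem_eq_finite_toFinset_sum _ hSfin]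
  · rfl
  · refine mul_nonneg (by positivity) (Finset.sum_nonneg fun 𝔟 h𝔟 => ?_)
    rw [Set.Finite.mem_toFinset] at h𝔟
    exact pow_nonneg ((hsv 𝔟 h𝔟.1).mpr h𝔟.2) _

end Pool.Agent.Q182.EO
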