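import Mathlib

/-! # Project EO (helper35), job UN, part 1: unfolding over the lattice of units, volumes -/

set_option autoImplicit false

namespace Pool.Agent.Q182.EO

open NumberField NumberField.Units NumberField.Units.dirichletUnitTheorem MeasureTheory
open scoped Classical ENNReal Pointwise

variable (K : Type) [Field K] [NumberField K]

variable {K} in
/-- the coordinates on the hyperplane -/
noncomputable def Zc (x : logSpace K) (w : InfinitePlace K) : ℝ :=
  if h : w = w₀ then -(∑ w', x w') / w.mult else x ⟨w, h⟩ / w.mult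

/-- the simplex -/
def Dl (s : ℝ) : Set (logSpace K) := {u | (∀ w, 0 ≤ u w) ∧ ∑ w, u w ≤ s}

variable {K}

omit [NumberField K] in
lemma mult_pos' (w : InfinitePlace K) : (0 : ℝ) < w.mult := by
  exact_mod_cast w.mult_pos

lemma Zc_ne (x : logSpace K) (w : {w : InfinitePlace K // w ≠ w₀}) : Zc x w.1 = x w / w.1.mult := by
  unfold Zc
  rw [dif_neg w.2]

lemma Zc_w0 (x : logSpace K) : Zc x (w₀ : InfinitePlace K) = -(∑ w', x w') / (w₀ : InfinitePlace K).mult := by
  unfold Zc
  rw [dif_pos rfl]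

lemma Zc_log (ε : (𝓞 K)ˣ) (w : InfinitePlace K) :
    Zc (logEmbedding K (Additive.ofMul ε)) w = Real.log (w (ε : K)) := by
  by_cases h : w = w₀
  · subst h
    rw [Zc_w0, sum_logEmbedding_component]
    have := (mult_pos' (w₀ : InfinitePlace K)).ne'
    field_simp
  · have h1 := Zc_ne (logEmbedding K (Additive.ofMul ε)) ⟨w, h⟩
    have h2 : Zc (logEmbedding K (Additive.ofMul ε)) w =
        (logEmbedding K (Additive.ofMul ε)) ⟨w, h⟩ / w.mult := h1
    rw [h2, logEmbedding_component]
    have := (mult_pos' w).ne'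
    field_simp

lemma Zc_sub (x y : logSpace K) (w : InfinitePlace K) : Zc (x - y) w = Zc x w - Zc y w := by
  by_cases h : w = w₀
  · subst h
    rw [Zc_w0, Zc_w0, Zc_w0]
    simp only [Pi.sub_apply, Finset.sum_sub_distrib]
    ring
  · rw [show Zc (x - y) w = (x - y) ⟨w, h⟩ / w.mult from Zc_ne (x - y) ⟨w, h⟩,
      show Zc x w = x ⟨w, h⟩ / w.mult from Zc_ne x ⟨w, h⟩,
      show Zc y w = y ⟨w, h⟩ / w.mult from Zc_ne y ⟨w, h⟩, Pi.sub_apply]
    ring

lemma Zc_cont (w : InfinitePlace K) : Continuous fun x : logSpace K => Zc x w := by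
  by_cases h : w = w₀
  · subst h
    simp only [Zc_w0]
    fun_prop
  · have h1 : ∀ x : logSpace K, Zc x w = x (⟨w, h⟩ : {w : InfinitePlace K // w ≠ w₀}) / w.mult :=
      fun x => Zc_ne x ⟨w, h⟩
    simp_rw [h1]
    exact (continuous_apply _).div_const _

lemma Zc_zero (w : InfinitePlace K) : Zc (0 : logSpace K) w = 0 := by
  have := Zc_sub (0 : logSpace K) 0 w
  rw [sub_zero, sub_self] at this
  exact this

/-- the region -/
def SA (A : InfinitePlace K → ℝ) : Set (logSpace K) := {x | ∀ w, A w ≤ Zc x w}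

lemma SA_meas (A : InfinitePlace K → ℝ) : MeasurableSet (SA A) := by
  have : SA A = ⋂ w, {x | A w ≤ Zc x w} := by
    ext x; simp [SA]
  rw [this]
  exact MeasurableSet.iInter fun w => measurableSet_le measurable_const (Zc_cont w).measurable

lemma vol_SA (A : InfinitePlace K → ℝ) :
    volume (SA A) = volume (Dl K (-∑ w : InfinitePlace K, w.mult * A w)) := by
  have h : SA A = (fun x : logSpace K => x + (fun w => -(w.1.mult * A w.1))) ⁻¹'
      (Dl K (-∑ w : InfinitePlace K, w.mult * A w)) := by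
    ext x
    simp only [SA, Dl, Set.mem_ofPred_eq, Set.mem_preimage, Pi.add_apply]
    have hsum : ∑ w : {w : InfinitePlace K // w ≠ w₀}, (x w + -(w.1.mult * A w.1)) ≤
        -∑ w : InfinitePlace K, w.mult * A w ↔ A w₀ ≤ Zc x w₀ := by
      rw [Zc_w0, le_div_iff₀ (mult_pos' _), Fintype.sum_eq_add_sum_subtype_ne _ w₀,
        Finset.sum_add_distrib, Finset.sum_neg_distrib]
      constructor
      · intro h; linarith
      · intro h; linarith
    constructor
    · intro hx
      refine ⟨fun w => ?_, hsum.mpr (hx w₀)⟩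
      have h1 := hx w.1
      rw [Zc_ne, le_div_iff₀ (mult_pos' _)] at h1
      linarith
    · rintro ⟨h1, h2⟩ w
      by_cases hw : w = w₀
      · rw [hw]; exact hsum.mp h2
      · have h3 := h1 ⟨w, hw⟩
        rw [show Zc x w = x ⟨w, hw⟩ / w.mult from Zc_ne x ⟨w, hw⟩, le_div_iff₀ (mult_pos' _)]
        linarith
  rw [h, measure_preimage_add_right]

lemma Dl_smul {s : ℝ} (hs : 0 ≤ s) : Dl K s = s • Dl K 1 := by
  rcases hs.eq_or_lt with h0 | h0
  · subst h0
    have h1 : (Dl K 1).Nonempty := ⟨0, fun w => le_rfl, by simp⟩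
    rw [Set.zero_smul_set h1]
    ext u
    simp only [Dl, Set.mem_ofPred_eq, Set.mem_zero]
    constructor
    · rintro ⟨h2, h3⟩
      funext w
      have h4 : u w ≤ ∑ w', u w' := Finset.single_le_sum (fun w' _ => h2 w') (Finset.mem_univ w)
      exact le_antisymm (h4.trans h3) (h2 w)
    · rintro rfl
      exact ⟨fun w => le_rfl, by simp⟩
  · ext u
    rw [Set.mem_smul_set_iff_inv_smul_mem₀ h0.ne']
    simp only [Dl, Set.mem_ofPred_eq, Pi.smul_apply, smul_eq_mul]
    rw [← Finset.mul_sum, inv_mul_le_iff₀ h0, mul_one]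
    constructor
    · rintro ⟨h1, h2⟩
      exact ⟨fun w => mul_nonneg (inv_nonneg.mpr h0.le) (h1 w), h2⟩
    · rintro ⟨h1, h2⟩
      refine ⟨fun w => ?_, h2⟩
      have h3 := h1 w
      by_contra h4
      push Not at h4
      have : s⁻¹ * u w < 0 := mul_neg_of_pos_of_neg (inv_pos.mpr h0) h4
      linarith

lemma vol_Dl {s : ℝ} (hs : 0 ≤ s) :
    volume (Dl K s) = ENNReal.ofReal (s ^ rank K) * volume (Dl K 1) := by
  rw [Dl_smul hs, Measure.addHaar_smul, Units.finrank_eq_rank, abs_of_nonneg (pow_nonneg hs _)]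

lemma Dl_neg {s : ℝ} (hs : s < 0) : Dl K s = ∅ := by
  ext u
  simp only [Dl, Set.mem_ofPred_eq, Set.mem_empty_iff_false, iff_false, not_and, not_le]
  intro h
  exact hs.trans_le (Finset.sum_nonneg fun w _ => h w)

lemma vol_Dl_ne_top : volume (Dl K 1) ≠ ⊤ := by
  have h : Dl K 1 ⊆ Set.pi Set.univ fun _ => Set.Icc (0 : ℝ) 1 := by
    rintro u ⟨h1, h2⟩ w -
    exact ⟨h1 w, (Finset.single_le_sum (fun w' _ => h1 w') (Finset.mem_univ w)).trans h2⟩
  refine ne_top_of_le_ne_top ?_ (measure_mono h)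
  rw [volume_pi_pi]
  simp

lemma vol_Dl_ne_zero : volume (Dl K 1) ≠ 0 := by
  set U : Set (logSpace K) := {u | (∀ w, 0 < u w) ∧ ∑ w, u w < 1} with hU
  have hUo : IsOpen U := by
    have : U = (⋂ w, {u : logSpace K | 0 < u w}) ∩ {u | ∑ w, u w < 1} := by
      ext u; simp [hU]
    rw [this]
    refine IsOpen.inter (isOpen_iInter_of_finite fun w => isOpen_lt continuous_const (by fun_prop))
      (isOpen_lt (by fun_prop) continuous_const)
  have hUn : U.Nonempty := by
    refine ⟨fun _ => 1 / ((Fintype.card {w : InfinitePlace K // w ≠ w₀} : ℝ) + 1), fun w => by positivity, ?_⟩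
    rw [Finset.sum_const, nsmul_eq_mul, Finset.card_univ, mul_one_div, div_lt_one (by positivity)]
    linarith
  have hsub : U ⊆ Dl K 1 := fun u hu => ⟨fun w => (hu.1 w).le, hu.2.le⟩
  exact ((hUo.measure_pos volume hUn).trans_le (measure_mono hsub)).ne'

variable (K) in
/-- the fundamental domain of the lattice of units -/
noncomputable def Fd : Set (logSpace K) :=
  ZSpan.fundamentalDomain ((basisUnitLattice K).ofZLatticeBasis ℝ (unitLattice K))

lemma Fd_meas : MeasurableSet (Fd K) := ZSpan.fundamentalDomain_measurableSet _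

lemma Fd_bdd : Bornology.IsBounded (Fd K) := ZSpan.fundamentalDomain_isBounded _

lemma Fd_fund : IsAddFundamentalDomain (unitLattice K) (Fd K) (volume : Measure (logSpace K)) :=
  ZLattice.isAddFundamentalDomain (basisUnitLattice K) volume

/-- unfolding -/
lemma unfold_units (A : InfinitePlace K → ℝ) :
    ∑' ε : (𝓞 K)ˣ, ∫⁻ ζ in Fd K, (if ∀ w : InfinitePlace K, A w + Real.log (w (ε : K)) ≤ Zc ζ w
      then 1 else 0) = (Nat.card (torsion K) : ℝ≥0∞) * volume (SA A) := by
  have h1 : ∀ ε : (𝓞 K)ˣ, (∫⁻ ζ in Fd K, (if ∀ w : InfinitePlace K, A w + Real.log (w (ε : K)) ≤ Zc ζ w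
      then 1 else 0)) = ∫⁻ ζ in Fd K, (SA A).indicator 1
        (-(logEmbedding K (Additive.ofMul ε)) + ζ) := by
    intro ε
    congr 1
    funext ζ
    rw [Set.indicator_apply]
    congr 1
    simp only [SA, Set.mem_ofPred_eq]
    rw [eq_iff_iff]
    refine forall_congr' fun w => ?_
    rw [neg_add_eq_sub, Zc_sub, Zc_log]
    constructor
    · intro h; linarith
    · intro h; linarith
  simp_rw [h1]
  -- the group of units as a product
  set G : unitLattice K → ℝ≥0∞ := fun g => ∫⁻ ζ in Fd K, (SA A).indicator 1 (-(g : logSpace K) + ζ)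
    with hG
  have h2 : ∀ ε : (𝓞 K)ˣ, (∫⁻ ζ in Fd K, (SA A).indicator 1
        (-(logEmbedding K (Additive.ofMul ε)) + ζ)) =
      G (logEmbeddingEquiv K (Additive.ofMul (QuotientGroup.mk ε : (𝓞 K)ˣ ⧸ torsion K))) := by
    intro ε
    rw [hG]
    simp only [logEmbeddingEquiv_apply]
  simp_rw [h2]
  rw [← (Subgroup.groupEquivQuotientProdSubgroup (s := torsion K)).symm.tsum_eq]
  have h3 : ∀ c : ((𝓞 K)ˣ ⧸ torsion K) × torsion K,
      (QuotientGroup.mk ((Subgroup.groupEquivQuotientProdSubgroup (s := torsion K)).symm c) :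
        (𝓞 K)ˣ ⧸ torsion K) = c.1 := by
    intro c
    set ε := (Subgroup.groupEquivQuotientProdSubgroup (s := torsion K)).symm c with hε
    have h4 : (Subgroup.groupEquivQuotientProdSubgroup (s := torsion K)) ε = c := by
      rw [hε, Equiv.apply_symm_apply]
    rw [← h4]
    rfl
  simp_rw [h3]
  rw [ENNReal.tsum_prod' (f := fun c : ((𝓞 K)ˣ ⧸ torsion K) × torsion K =>
    G (logEmbeddingEquiv K (Additive.ofMul c.1)))]
  have h5 : ∀ q : (𝓞 K)ˣ ⧸ torsion K, ∑' _ : torsion K, G (logEmbeddingEquiv K (Additive.ofMul q)) =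
      (Nat.card (torsion K) : ℝ≥0∞) * G (logEmbeddingEquiv K (Additive.ofMul q)) := by
    intro q
    have : Fintype (torsion K) := Fintype.ofFinite _
    rw [tsum_fintype, Finset.sum_const, nsmul_eq_mul, Finset.card_univ, Nat.card_eq_fintype_card]
  simp_rw [h5]
  rw [ENNReal.tsum_mul_left]
  congr 1
  have h6 := (Additive.ofMul.trans (logEmbeddingEquiv K).toEquiv).tsum_eq G
  have h7 : ∑' q : (𝓞 K)ˣ ⧸ torsion K, G (logEmbeddingEquiv K (Additive.ofMul q)) = ∑' g, G g := h6
  rw [h7]
  have : VAddInvariantMeasure (unitLattice K) (logSpace K) volume :=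
    (inferInstance : VAddInvariantMeasure (unitLattice K).toAddSubgroup (logSpace K) volume)
  have h8 := (Fd_fund (K := K)).lintegral_eq_tsum' ((SA A).indicator (1 : logSpace K → ℝ≥0∞))
  rw [lintegral_indicator_one (SA_meas A)] at h8
  rw [h8]
  rfl

end Pool.Agent.Q182.EO
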